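import Pool.Agent.W996.MW.Stm

open scoped ComplexOrder Matrix

namespace Pool.Agent.W971.MW

open Pool.Agent.W996.MW

variable {ι : Type*} [Fintype ι]

open scoped MatrixOrder in
theorem psd_factor {A : Matrix ι ι ℂ} (hA : A.PosSemidef) : ∃ B : Matrix ι ι ℂ, A = Bᴴ * B := by
  classical
  obtain ⟨B, hB⟩ := CStarAlgebra.nonneg_iff_eq_star_mul_self.mp hA.nonneg
  exact ⟨B, hB⟩

/-- Cauchy–Schwarz. -/
theorem cs (x y : ι → ℂ) : ‖star x ⬝ᵥ y‖ ^ 2 ≤ normSq x * normSq y := by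
  have h1 : ‖star x ⬝ᵥ y‖ ≤ ∑ i, ‖x i‖ * ‖y i‖ := by
    unfold dotProduct
    refine (norm_sum_le _ _).trans (le_of_eq ?_)
    refine Finset.sum_congr rfl fun i _ => ?_
    rw [norm_mul]
    simp
  have h2 := Finset.sum_mul_sq_le_sq_mul_sq Finset.univ (fun i => ‖x i‖) (fun i => ‖y i‖)
  calc ‖star x ⬝ᵥ y‖ ^ 2 ≤ (∑ i, ‖x i‖ * ‖y i‖) ^ 2 :=
        pow_le_pow_left₀ (norm_nonneg _) h1 2
    _ ≤ _ := h2

theorem accept_factor [DecidableEq ι] (B : Matrix ι ι ℂ) (x y : ι → ℂ) :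
    star x ⬝ᵥ ((Bᴴ * B) *ᵥ y) = star (B *ᵥ x) ⬝ᵥ (B *ᵥ y) := by
  rw [← Matrix.mulVec_mulVec, Matrix.dotProduct_mulVec, Matrix.star_mulVec]

theorem self_dot (x : ι → ℂ) : star x ⬝ᵥ x = ((normSq x : ℝ) : ℂ) := by
  unfold dotProduct normSq
  rw [Complex.ofReal_sum]
  refine Finset.sum_congr rfl fun i _ => ?_
  rw [Pi.star_apply, RCLike.star_def]
  rw [Complex.conj_mul']
  push_cast
  rfl

theorem OPT : S_OPT := by
  intro hLB ι _ _ _ A ψ hA hψ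
  obtain ⟨B, hB⟩ : ∃ B : Matrix ι ι ℂ, A = Bᴴ * B := by
    exact psd_factor hA
  have hacc : ∀ φ : ι → ℂ, accept A φ = normSq (B *ᵥ φ) := by
    intro φ
    unfold accept
    rw [hB, accept_factor, self_dot, Complex.ofReal_re]
  have hdot : ∀ φ : ι → ℂ, star φ ⬝ᵥ (A *ᵥ φ) = ((accept A φ : ℝ) : ℂ) := by
    intro φ
    rw [hacc, hB, accept_factor, self_dot]
  have hnn : ∀ φ : ι → ℂ, 0 ≤ accept A φ := by
    intro φ
    rw [hacc]
    exact Finset.sum_nonneg fun i _ => sq_nonneg _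
  have hlog : 0 ≤ 5 + Real.log (Fintype.card ι) := by
    have := Real.log_natCast_nonneg (Fintype.card ι)
    linarith
  obtain ⟨S, hS, hSb⟩ := hLB ι (A *ᵥ ψ)
  refine ⟨S, hS, ?_⟩
  have hc : (0 : ℝ) < (S.card : ℝ) := by exact_mod_cast hS.card_pos
  -- the overlap
  have hov : star (subsetState S) ⬝ᵥ (A *ᵥ ψ) =
      (((Real.sqrt (S.card : ℝ))⁻¹ : ℝ) : ℂ) * ∑ i ∈ S, (A *ᵥ ψ) i := by
    unfold dotProduct subsetState
    rw [Finset.mul_sum, ← Finset.sum_subset (Finset.subset_univ S)]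
    · refine Finset.sum_congr rfl fun i hi => ?_
      rw [Pi.star_apply, if_pos hi, RCLike.star_def, Complex.conj_ofReal]
    · intro i _ hi
      rw [Pi.star_apply, if_neg hi]
      simp
  have h1 : ‖star (subsetState S) ⬝ᵥ (A *ᵥ ψ)‖ ^ 2 ≤ accept A (subsetState S) * accept A ψ := by
    rw [hacc, hacc]
    conv_lhs => rw [hB, accept_factor]
    exact cs _ _
  have h2 : ‖star (subsetState S) ⬝ᵥ (A *ᵥ ψ)‖ ^ 2 =
      ‖∑ i ∈ S, (A *ᵥ ψ) i‖ ^ 2 / (S.card : ℝ) := by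
    rw [hov, norm_mul, mul_pow, Complex.norm_real, Real.norm_eq_abs, sq_abs, inv_pow,
      Real.sq_sqrt hc.le]
    field_simp
  have h3 : normSq (A *ᵥ ψ) ≤ (5 + Real.log (Fintype.card ι)) *
      (accept A (subsetState S) * accept A ψ) := by
    have h4 : normSq (A *ᵥ ψ) ≤ (5 + Real.log (Fintype.card ι)) *
        (‖∑ i ∈ S, (A *ᵥ ψ) i‖ ^ 2 / (S.card : ℝ)) := by
      rw [← mul_div_assoc, le_div_iff₀ hc]
      linarith
    rw [← h2] at h4
    exact h4.trans (mul_le_mul_of_nonneg_left h1 hlog)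
  have h5 : accept A ψ ^ 2 ≤ normSq (A *ᵥ ψ) := by
    have h6 := cs ψ (A *ᵥ ψ)
    rw [hdot ψ, hψ, one_mul, Complex.norm_real, Real.norm_eq_abs, sq_abs] at h6
    exact h6
  rcases (hnn ψ).eq_or_lt with h0 | h0
  · rw [← h0]
    exact mul_nonneg hlog (hnn _)
  · have h7 : accept A ψ * accept A ψ ≤
        (5 + Real.log (Fintype.card ι)) * accept A (subsetState S) * accept A ψ := by
      nlinarith
    exact le_of_mul_le_mul_right h7 h0

end Pool.Agent.W971.MW
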